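import Pool.Agent.X79.EQP.Stm

set_option autoImplicit false

/-!
# The convolution of two counting functions (part CONV of the project PR)
-/

namespace Pool.Agent.X87.EQP

open Filter MeasureTheory Set Topology Pool.Agent.X79.EQ Pool.Agent.X79.EQP

/-- monotone, zero below `m` -/
structure Ad (U : ℝ → ℝ) (m : ℝ) : Prop where
  mono : Monotone U
  van : ∀ u, u < m → U u = 0

noncomputable def II (U : ℝ → ℝ) (u : ℝ) : ℝ := ∫ v in Ioi (0 : ℝ), Real.exp v * U (u - v)

theorem Ad.nonneg {U : ℝ → ℝ} {m : ℝ} (h : Ad U m) (u : ℝ) : 0 ≤ U u := by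
  rw [← h.van (min u (m - 1)) (lt_of_le_of_lt (min_le_right _ _) (by linarith))]
  exact h.mono (min_le_left _ _)

theorem Ad.int {U : ℝ → ℝ} {m : ℝ} (h : Ad U m) (u : ℝ) :
    IntegrableOn (fun v => Real.exp v * U (u - v)) (Ioi (0 : ℝ)) := by
  have hmeas : Measurable (fun v : ℝ => Real.exp v * U (u - v)) :=
    Real.measurable_exp.mul (h.mono.measurable.comp (measurable_const.sub measurable_id))
  have h1 : IntegrableOn (fun v : ℝ => (Ioc (0 : ℝ) (max 0 (u - m))).indicator
      (fun _ => Real.exp (max 0 (u - m)) * U u) v) (Ioi (0 : ℝ)) := by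
    refine Integrable.integrableOn ?_
    rw [integrable_indicator_iff measurableSet_Ioc]
    exact (integrableOn_const (by simp))
  refine Integrable.mono' h1 hmeas.aestronglyMeasurable ?_
  rw [ae_restrict_iff' measurableSet_Ioi]
  refine Eventually.of_forall fun v hv => ?_
  have hv0 : (0 : ℝ) < v := hv
  rw [Real.norm_eq_abs, abs_of_nonneg (mul_nonneg (Real.exp_pos _).le (h.nonneg _))]
  by_cases hvl : v ≤ max 0 (u - m)
  · rw [indicator_of_mem (show v ∈ Ioc (0 : ℝ) (max 0 (u - m)) from ⟨hv0, hvl⟩)]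
    exact mul_le_mul (Real.exp_le_exp.2 hvl) (h.mono (by linarith)) (h.nonneg _)
      (Real.exp_pos _).le
  · rw [indicator_of_notMem (fun hc => hvl hc.2), h.van (u - v) ?_, mul_zero]
    push Not at hvl
    have := (le_max_right 0 (u - m)).trans_lt hvl
    linarith

theorem Ad.II {U : ℝ → ℝ} {m : ℝ} (h : Ad U m) : Ad (II U) m := by
  constructor
  · intro u u' huu
    refine integral_mono (h.int u) (h.int u') fun v => ?_
    exact mul_le_mul_of_nonneg_left (h.mono (by linarith)) (Real.exp_pos _).le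
  · intro u hu
    unfold EQP.II
    rw [setIntegral_congr_fun measurableSet_Ioi (g := fun _ => (0 : ℝ)) (fun v hv => ?_)]
    · simp
    · have hv0 : (0 : ℝ) < v := hv
      show Real.exp v * U (u - v) = 0
      rw [h.van (u - v) (by linarith), mul_zero]

noncomputable def th : ℕ → ℝ → ℝ
  | 0 => fun v => if 0 ≤ v then 1 else 0
  | j + 1 => II (th j)

theorem th_Ad (j : ℕ) : Ad (th j) 0 := by
  induction j with
  | zero =>
    constructor
    · intro u u' huu
      unfold th
      show (if 0 ≤ u then (1 : ℝ) else 0) ≤ if 0 ≤ u' then 1 else 0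
      by_cases h : 0 ≤ u
      · rw [if_pos h, if_pos (h.trans huu)]
      · rw [if_neg h]; split_ifs <;> norm_num
    · intro u hu
      unfold th
      exact if_neg (not_le.2 hu)
  | succ j ih => exact ih.II

theorem th_one (u : ℝ) (hu : 0 ≤ u) : th 1 u = Real.exp u - 1 := by
  show ∫ v in Ioi (0 : ℝ), Real.exp v * (if 0 ≤ u - v then (1 : ℝ) else 0) = _
  have h1 : (fun v : ℝ => Real.exp v * (if 0 ≤ u - v then (1 : ℝ) else 0))
      = (Iic u).indicator (fun v => Real.exp v) := by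
    ext v
    by_cases hv : v ≤ u
    · rw [indicator_of_mem (show v ∈ Iic u from hv), if_pos (by linarith), mul_one]
    · rw [indicator_of_notMem (show v ∉ Iic u from hv), if_neg (by push Not at hv ⊢; linarith),
        mul_zero]
  rw [h1, setIntegral_indicator measurableSet_Iic, Ioi_inter_Iic,
    ← intervalIntegral.integral_of_le hu, integral_exp, Real.exp_zero]

theorem th_lim (h : S_L1) (j : ℕ) :
    Tendsto (fun u => th (j + 1) u / nu j u) atTop (𝓝 (1 / (j.factorial : ℝ))) := by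
  induction j with
  | zero =>
    have h1 : Tendsto (fun u : ℝ => 1 - Real.exp (-u)) atTop (𝓝 (1 - 0)) :=
      tendsto_const_nhds.sub (Real.tendsto_exp_neg_atTop_nhds_zero)
    rw [sub_zero] at h1
    have e : (1 : ℝ) / ((0 : ℕ).factorial : ℝ) = 1 := by simp
    rw [e]
    refine h1.congr' ?_
    filter_upwards [eventually_ge_atTop 0] with u hu
    rw [zero_add, th_one u hu]
    unfold nu
    rw [pow_zero, mul_one, Real.exp_neg]
    have := Real.exp_ne_zero u
    field_simp
  | succ j ih =>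
    have h1 := h (th (j + 1)) j _ 0 (th_Ad _).mono (th_Ad _).van ih
    have e : (1 : ℝ) / ((j + 1).factorial : ℝ) = 1 / (j.factorial : ℝ) / (j + 1) := by
      rw [Nat.factorial_succ]; push_cast
      have : (j.factorial : ℝ) ≠ 0 := by exact_mod_cast j.factorial_ne_zero
      field_simp
    rw [e]
    exact h1

section

variable {X : Type} {h w : X → ℝ}

open Classical in
noncomputable def AA (hfin : Fin' h) (w : X → ℝ) (j : ℕ) (u : ℝ) : ℝ :=
  ∑ x ∈ (hfin u).toFinset, w x * th j (u - h x)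

theorem AA_eq (hfin : Fin' h) (j : ℕ) {u T : ℝ} (hT : u ≤ T) :
    AA hfin w j u = ∑ x ∈ (hfin T).toFinset, w x * th j (u - h x) := by
  unfold AA
  refine Finset.sum_subset ?_ fun x _ hx => ?_
  · intro x hx
    simp only [Finite.mem_toFinset, mem_setOf_eq] at hx ⊢
    exact hx.trans hT
  · simp only [Finite.mem_toFinset, mem_setOf_eq, not_le] at hx
    rw [(th_Ad j).van _ (by linarith), mul_zero]

theorem AA_Ad (hfin : Fin' h) (hw : ∀ x, 0 ≤ w x) (j : ℕ) {m : ℝ} (hm : ∀ x, m ≤ h x) :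
    Ad (AA hfin w j) m := by
  constructor
  · intro u u' huu
    rw [AA_eq hfin j huu, AA_eq hfin j le_rfl]
    refine Finset.sum_le_sum fun x _ => ?_
    exact mul_le_mul_of_nonneg_left ((th_Ad j).mono (by linarith)) (hw x)
  · intro u hu
    unfold AA
    refine Finset.sum_eq_zero fun x _ => ?_
    rw [(th_Ad j).van _ (by linarith [hm x]), mul_zero]

theorem AA_succ (hfin : Fin' h) (j : ℕ) (u : ℝ) :
    AA hfin w (j + 1) u = ∫ v in Ioi (0 : ℝ), Real.exp v * AA hfin w j (u - v) := by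
  have h1 : ∫ v in Ioi (0 : ℝ), Real.exp v * AA hfin w j (u - v)
      = ∫ v in Ioi (0 : ℝ), ∑ x ∈ (hfin u).toFinset, w x * (Real.exp v * th j ((u - h x) - v)) := by
    refine setIntegral_congr_fun measurableSet_Ioi fun v hv => ?_
    have hv0 : (0 : ℝ) < v := hv
    show Real.exp v * AA hfin w j (u - v) = _
    rw [AA_eq hfin j (show u - v ≤ u by linarith), Finset.mul_sum]
    refine Finset.sum_congr rfl fun x _ => ?_
    rw [show u - v - h x = u - h x - v by ring]
    ring
  rw [h1, integral_finset_sum _ fun x _ => ((th_Ad j).int (u - h x)).const_mul (w x)]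
  unfold AA
  refine Finset.sum_congr rfl fun x _ => ?_
  rw [integral_const_mul]
  rfl

theorem AA_zero (hfin : Fin' h) (u : ℝ) : AA hfin w 0 u = cnt h w (fun _ => 0) u := by
  classical
  rw [cnt_eq hfin (M := 0) (f := fun _ => 0) (fun _ => by simp) (T := u) (by simp)]
  unfold AA th
  refine Finset.sum_congr rfl fun x _ => ?_
  by_cases hx : h x ≤ u
  · rw [if_pos (by linarith), if_pos (by linarith), mul_one]
  · rw [if_neg (by push Not at hx ⊢; linarith), if_neg (by push Not at hx ⊢; linarith), mul_zero]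

theorem AA_lim (hL : S_L1) (hfin : Fin' h) (hw : ∀ x, 0 ≤ w x) {b : ℕ} {a : ℝ}
    (hlim : Tendsto (fun u => cnt h w (fun _ => 0) u / nu b u) atTop (𝓝 a)) (j : ℕ) :
    Tendsto (fun u => AA hfin w j u / nu (b + j) u) atTop
      (𝓝 (a * (b.factorial : ℝ) / ((b + j).factorial : ℝ))) := by
  obtain ⟨m, hm⟩ := exists_min hfin
  induction j with
  | zero =>
    have : (b.factorial : ℝ) ≠ 0 := by exact_mod_cast b.factorial_ne_zero
    rw [add_zero, mul_div_assoc, div_self this, mul_one]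
    simp_rw [AA_zero]
    exact hlim
  | succ j ih =>
    have h1 := hL (AA hfin w j) (b + j) _ m (AA_Ad hfin hw j hm).mono (AA_Ad hfin hw j hm).van ih
    have e : a * (b.factorial : ℝ) / ((b + (j + 1)).factorial : ℝ)
        = a * (b.factorial : ℝ) / ((b + j).factorial : ℝ) / ((b + j : ℕ) + 1) := by
      rw [← add_assoc, Nat.factorial_succ]; push_cast
      have : ((b + j).factorial : ℝ) ≠ 0 := by exact_mod_cast (b + j).factorial_ne_zero
      have : ((b : ℝ) + j + 1) ≠ 0 := by positivity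
      field_simp
    rw [e]
    refine h1.congr fun u => ?_
    rw [AA_succ, add_assoc]

end

/-- the counting function of the product -/
theorem cnt_prod {X₁ X₂ : Type} {h₁ w₁ : X₁ → ℝ} {h₂ w₂ : X₂ → ℝ} (f1 : Fin' h₁) (f2 : Fin' h₂)
    {m : ℝ} (hm : ∀ x, m ≤ h₂ x) (u : ℝ) :
    cnt (fun x : X₁ × X₂ => h₁ x.1 + h₂ x.2) (fun x => w₁ x.1 * w₂ x.2) (fun _ => 0) u
      = ∑ x ∈ (f1 (u - m)).toFinset, w₁ x * cnt h₂ w₂ (fun _ => 0) (u - h₁ x) := by
  classical
  obtain ⟨m₁, hm₁⟩ := exists_min f1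
  have h1 : cnt (fun x : X₁ × X₂ => h₁ x.1 + h₂ x.2) (fun x => w₁ x.1 * w₂ x.2) (fun _ => 0) u
      = ∑ x ∈ (f1 (u - m)).toFinset ×ˢ (f2 (u - m₁)).toFinset,
        if h₁ x.1 + h₂ x.2 ≤ u + 0 then w₁ x.1 * w₂ x.2 else 0 := by
    unfold cnt
    apply finsum_eq_sum_of_support_subset
    intro x hx
    rw [Function.mem_support] at hx
    have h1 : h₁ x.1 + h₂ x.2 ≤ u + 0 := by
      by_contra hc
      rw [if_neg hc] at hx
      exact hx rfl
    have h2 := hm x.2
    have h3 := hm₁ x.1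
    rw [Finset.mem_coe, Finset.mem_product, Finite.mem_toFinset, Finite.mem_toFinset]
    exact ⟨show h₁ x.1 ≤ u - m by linarith, show h₂ x.2 ≤ u - m₁ by linarith⟩
  rw [h1, Finset.sum_product]
  refine Finset.sum_congr rfl fun x _ => ?_
  rw [cnt_eq f2 (M := 0) (f := fun _ => 0) (fun _ => by simp) (T := u - m₁)
    (by linarith [hm₁ x]), Finset.mul_sum]
  refine Finset.sum_congr rfl fun y _ => ?_
  by_cases hxy : h₁ x + h₂ y ≤ u
  · rw [if_pos (by simpa using hxy), if_pos (by linarith)]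
  · rw [if_neg (by simpa using hxy), if_neg (by push Not at hxy ⊢; linarith), mul_zero]

theorem t_CONV (hL : S_L1) : S_CONV := by
  intro X₁ X₂ h₁ w₁ h₂ w₂ b₁ b₂ a₁ a₂ f1 f2 hw1 hw2 hl1 hl2
  classical
  obtain ⟨m₂', hm₂'⟩ := exists_min f2
  set m : ℝ := min m₂' 0 with hmd
  have hm : ∀ x, m ≤ h₂ x := fun x => (min_le_left _ _).trans (hm₂' x)
  have hm0 : m ≤ 0 := min_le_right _ _
  set B : ℝ → ℝ := cnt h₂ w₂ (fun _ => 0) with hB
  set c : ℝ := a₂ * b₂.factorial with hc
  set g : ℝ := a₁ * (b₁.factorial : ℝ) / ((b₁ + (b₂ + 1)).factorial : ℝ) with hg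
  have hBA : Ad B m := by
    constructor
    · exact cnt_monotone f2 (M := 0) (fun _ => by simp) hw2
    · intro u hu
      rw [hB, cnt_eq f2 (M := 0) (f := fun _ => 0) (fun _ => by simp) (T := u) (by simp)]
      refine Finset.sum_eq_zero fun x _ => if_neg ?_
      rw [not_le]
      linarith [hm x]
  have hG := AA_lim hL f1 hw1 hl1 (b₂ + 1)
  have hGnn : ∀ u, 0 ≤ AA f1 w₁ (b₂ + 1) u := by
    obtain ⟨m₁, hm₁⟩ := exists_min f1
    exact (AA_Ad f1 hw1 (b₂ + 1) hm₁).nonneg
  -- the second error term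
  have hE : Tendsto (fun u => AA f1 w₁ 0 (u - m) / nu (b₁ + (b₂ + 1)) u) atTop (𝓝 0) := by
    have e1 : Tendsto (fun u : ℝ => AA f1 w₁ 0 (u - m) / nu b₁ (u - m)) atTop (𝓝 a₁) := by
      simp_rw [AA_zero]
      exact hl1.comp (tendsto_atTop_add_const_right _ (-m) tendsto_id)
    have e2 := nu_ratio b₁ m
    have e3 : Tendsto (fun u : ℝ => (u ^ (b₂ + 1))⁻¹) atTop (𝓝 0) :=
      tendsto_inv_atTop_zero.comp (tendsto_pow_atTop (by omega))
    have e4 := (e1.mul e2).mul e3
    rw [mul_zero] at e4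
    refine e4.congr' ?_
    filter_upwards [eventually_gt_atTop 0] with u hu
    have hu1 : 0 < u - m := by linarith
    have n1 := (nu_pos (b := b₁) hu1).ne'
    have n2 := (nu_pos (b := b₁) hu).ne'
    have n3 : nu (b₁ + (b₂ + 1)) u = nu b₁ u * u ^ (b₂ + 1) := by
      unfold nu; rw [pow_add]; ring
    rw [n3]
    have n4 : u ^ (b₂ + 1) ≠ 0 := by positivity
    field_simp
  -- the comparison of `B` and `θ`
  have hcmp : ∀ ε : ℝ, 0 < ε → ∃ C : ℝ, 0 ≤ C ∧ ∀ v, |B v - c * th (b₂ + 1) v|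
      ≤ ε * th (b₂ + 1) v + C * th 0 (v - m) := by
    intro ε hε
    have hf0 : (b₂.factorial : ℝ) ≠ 0 := by exact_mod_cast b₂.factorial_ne_zero
    have t1 := th_lim hL b₂
    have t2 : Tendsto (fun u => (B u - c * th (b₂ + 1) u - ε * th (b₂ + 1) u) / nu b₂ u) atTop
        (𝓝 (a₂ - c * (1 / b₂.factorial) - ε * (1 / b₂.factorial))) := by
      refine ((hl2.sub (t1.const_mul c)).sub (t1.const_mul ε)).congr fun u => ?_
      ring
    have t3 : Tendsto (fun u => (B u - c * th (b₂ + 1) u + ε * th (b₂ + 1) u) / nu b₂ u) atTop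
        (𝓝 (a₂ - c * (1 / b₂.factorial) + ε * (1 / b₂.factorial))) := by
      refine ((hl2.sub (t1.const_mul c)).add (t1.const_mul ε)).congr fun u => ?_
      ring
    have e0 : a₂ - c * (1 / (b₂.factorial : ℝ)) = 0 := by
      rw [hc]; field_simp; ring
    have hpos : 0 < ε * (1 / (b₂.factorial : ℝ)) := by positivity
    rw [e0] at t2 t3
    have ev := ((t2.eventually (gt_mem_nhds (show 0 - ε * (1 / (b₂.factorial : ℝ)) < 0 by linarith))).and
      (t3.eventually (lt_mem_nhds (show 0 < 0 + ε * (1 / (b₂.factorial : ℝ)) by linarith)))).and (eventually_gt_atTop 0)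
    obtain ⟨V, hV⟩ := eventually_atTop.1 ev
    have hth := th_Ad (b₂ + 1)
    refine ⟨B V + |c| * th (b₂ + 1) V, by
      have := hBA.nonneg V
      have := hth.nonneg V
      positivity, fun v => ?_⟩
    have q0 : 0 ≤ B V + |c| * th (b₂ + 1) V := by
      have := hBA.nonneg V
      have := hth.nonneg V
      positivity
    have q1 : 0 ≤ th 0 (v - m) := (th_Ad 0).nonneg _
    have q2 : 0 ≤ ε * th (b₂ + 1) v := mul_nonneg hε.le (hth.nonneg v)
    by_cases hv : V ≤ v
    · obtain ⟨⟨h1, h2⟩, h3⟩ := hV v hv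
      have hnu := nu_pos (b := b₂) h3
      have h1' : B v - c * th (b₂ + 1) v - ε * th (b₂ + 1) v < 0 := by
        by_contra hcon
        exact absurd h1 (not_lt.2 (div_nonneg (not_lt.1 hcon) hnu.le))
      have h2' : 0 < B v - c * th (b₂ + 1) v + ε * th (b₂ + 1) v := by
        by_contra hcon
        exact absurd h2 (not_lt.2 (div_nonpos_of_nonpos_of_nonneg (not_lt.1 hcon) hnu.le))
      have h4 : |B v - c * th (b₂ + 1) v| ≤ ε * th (b₂ + 1) v := abs_le.2 ⟨by linarith, by linarith⟩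
      have h5 := mul_nonneg q0 q1
      linarith
    · push Not at hv
      by_cases hvm : v < m
      · rw [hBA.van v hvm, hth.van v (by linarith)]
        simp only [mul_zero, sub_zero, abs_zero, zero_add]
        exact mul_nonneg q0 q1
      · push Not at hvm
        have e1 : th 0 (v - m) = 1 := by
          show (if 0 ≤ v - m then (1 : ℝ) else 0) = 1
          rw [if_pos (by linarith)]
        rw [e1, mul_one]
        have h1 := hBA.mono hv.le
        have h2 := hth.mono hv.le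
        have h3 := hBA.nonneg v
        have h4 := hth.nonneg v
        have h5 : |B v - c * th (b₂ + 1) v| ≤ |B v| + |c * th (b₂ + 1) v| := abs_sub _ _
        rw [abs_mul, abs_of_nonneg h3, abs_of_nonneg h4] at h5
        have h6 : |c| * th (b₂ + 1) v ≤ |c| * th (b₂ + 1) V :=
          mul_le_mul_of_nonneg_left h2 (abs_nonneg _)
        linarith
  -- the inequality for the sums
  have hmain : ∀ ε : ℝ, 0 < ε → ∃ C : ℝ, 0 ≤ C ∧ ∀ u,
      |cnt (fun x : X₁ × X₂ => h₁ x.1 + h₂ x.2) (fun x => w₁ x.1 * w₂ x.2) (fun _ => 0) u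
        - c * AA f1 w₁ (b₂ + 1) u| ≤ ε * AA f1 w₁ (b₂ + 1) u + C * AA f1 w₁ 0 (u - m) := by
    intro ε hε
    obtain ⟨C, hC, hCb⟩ := hcmp ε hε
    refine ⟨C, hC, fun u => ?_⟩
    rw [cnt_prod f1 f2 hm u, AA_eq f1 (b₂ + 1) (show u ≤ u - m by linarith),
      AA_eq f1 0 (le_refl (u - m)), Finset.mul_sum, Finset.mul_sum, Finset.mul_sum,
      ← Finset.sum_sub_distrib, ← Finset.sum_add_distrib]
    refine (Finset.abs_sum_le_sum_abs _ _).trans (Finset.sum_le_sum fun x _ => ?_)
    have h1 := hCb (u - h₁ x)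
    have e1 : w₁ x * cnt h₂ w₂ (fun _ => 0) (u - h₁ x) - c * (w₁ x * th (b₂ + 1) (u - h₁ x))
        = w₁ x * (B (u - h₁ x) - c * th (b₂ + 1) (u - h₁ x)) := by rw [hB]; ring
    rw [e1, abs_mul, abs_of_nonneg (hw1 x)]
    refine (mul_le_mul_of_nonneg_left h1 (hw1 x)).trans (le_of_eq ?_)
    rw [show u - m - h₁ x = u - h₁ x - m by ring]
    ring
  -- the limit
  have hlimG : Tendsto (fun u => c * (AA f1 w₁ (b₂ + 1) u / nu (b₁ + (b₂ + 1)) u)) atTop
      (𝓝 (c * g)) := hG.const_mul c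
  have hdiff : Tendsto (fun u =>
      cnt (fun x : X₁ × X₂ => h₁ x.1 + h₂ x.2) (fun x => w₁ x.1 * w₂ x.2) (fun _ => 0) u
        / nu (b₁ + (b₂ + 1)) u - c * (AA f1 w₁ (b₂ + 1) u / nu (b₁ + (b₂ + 1)) u)) atTop (𝓝 0) := by
    rw [Metric.tendsto_atTop]
    intro ε hε
    set ε' : ℝ := ε / (2 * (|g| + 1)) with hε'
    have hε'0 : 0 < ε' := by positivity
    obtain ⟨C, hC, hCb⟩ := hmain ε' hε'0
    have hE' := hE.const_mul C
    rw [mul_zero] at hE'
    have ev := ((hG.eventually (gt_mem_nhds (show g < |g| + 1 by linarith [le_abs_self g]))).and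
      (hE'.eventually (gt_mem_nhds (show (0 : ℝ) < ε / 2 by linarith)))).and
      (eventually_gt_atTop 0)
    obtain ⟨V, hV⟩ := eventually_atTop.1 ev
    refine ⟨V, fun u hu => ?_⟩
    obtain ⟨⟨h1, h2⟩, h3⟩ := hV u hu
    have hnu := nu_pos (b := b₁ + (b₂ + 1)) h3
    rw [Real.dist_eq, sub_zero, ← mul_div_assoc, ← sub_div, abs_div, abs_of_pos hnu]
    have h4 := div_le_div_of_nonneg_right (hCb u) hnu.le
    refine h4.trans_lt ?_
    rw [add_div, mul_div_assoc, mul_div_assoc]
    have h5 : ε' * (AA f1 w₁ (b₂ + 1) u / nu (b₁ + (b₂ + 1)) u) ≤ ε' * (|g| + 1) :=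
      mul_le_mul_of_nonneg_left h1.le hε'0.le
    have h6 : ε' * (|g| + 1) = ε / 2 := by
      rw [hε']
      have : |g| + 1 ≠ 0 := by positivity
      field_simp
    linarith
  have hfin := hdiff.add hlimG
  rw [zero_add] at hfin
  have e : a₁ * a₂ * ((b₁.factorial : ℝ) * b₂.factorial / (b₁ + b₂ + 1).factorial) = c * g := by
    rw [hc, hg, ← add_assoc]; ring
  rw [e]
  refine hfin.congr fun u => ?_
  rw [sub_add_cancel, ← add_assoc]

end Pool.Agent.X87.EQP
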